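import Mathlib

/-!
# Achievement sets are regularly closed or nowhere dense
-/

namespace Pool.Agent.Results.MP_69f3e4_an.RegularlyClosedOrNowhereDense

open Set Filter Topology

/-- The achievement set of a sequence `v`: the set of all subsums `∑ ε_n v_n`, `ε_n ∈ {0, 1}`. -/
def AchSet {X : Type*} [NormedAddCommGroup X] [NormedSpace ℝ X] (v : ℕ → X) : Set X :=
  {x | ∃ ε : ℕ → ℝ, (∀ n, ε n = 0 ∨ ε n = 1) ∧ x = ∑' n, ε n • v n}

section

variable {X : Type*} [NormedAddCommGroup X] [NormedSpace ℝ X] [CompleteSpace X]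

omit [CompleteSpace X] in
lemma norm_eps {ε : ℕ → ℝ} (hε : ∀ n, ε n = 0 ∨ ε n = 1) (v : ℕ → X) (n : ℕ) :
    ‖ε n • v n‖ ≤ ‖v n‖ := by
  rcases hε n with h | h <;> simp [h]

lemma summable_eps {ε : ℕ → ℝ} (hε : ∀ n, ε n = 0 ∨ ε n = 1) {v : ℕ → X}
    (hv : Summable fun n => ‖v n‖) : Summable fun n => ε n • v n :=
  Summable.of_norm_bounded hv (norm_eps hε v)

lemma isCompact_achSet {v : ℕ → X} (hv : Summable fun n => ‖v n‖) : IsCompact (AchSet v) := by
  have h1 : Continuous fun ε : ℕ → Bool => ∑' n, (if ε n then (1 : ℝ) else 0) • v n := by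
    refine continuous_tsum (u := fun n => ‖v n‖) ?_ hv ?_
    · intro n
      have h2 : Continuous fun b : Bool => (if b then (1 : ℝ) else 0) • v n :=
        continuous_of_discreteTopology
      exact h2.comp (continuous_apply n)
    · intro n ε
      by_cases h : ε n <;> simp [h]
  have h2 : AchSet v = range fun ε : ℕ → Bool => ∑' n, (if ε n then (1 : ℝ) else 0) • v n := by
    ext x
    constructor
    · rintro ⟨ε, hε, rfl⟩
      refine ⟨fun n => decide (ε n = 1), ?_⟩
      refine tsum_congr fun n => ?_
      rcases hε n with h | h <;> simp [h]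
    · rintro ⟨ε, rfl⟩
      exact ⟨fun n => if ε n then 1 else 0, fun n => by by_cases h : ε n <;> simp [h], rfl⟩
  rw [h2]
  exact isCompact_range h1

/-- A tail achievement set, moved by a partial subsum, sits in the achievement set. -/
lemma shift_mem {v : ℕ → X} (hv : Summable fun n => ‖v n‖) {ε : ℕ → ℝ}
    (hε : ∀ n, ε n = 0 ∨ ε n = 1) (N : ℕ) {z : X} (hz : z ∈ AchSet fun n => v (n + N)) :
    (∑ n ∈ Finset.range N, ε n • v n) + z ∈ AchSet v := by
  obtain ⟨δ, hδ, rfl⟩ := hz
  have hε' : ∀ n, (if n < N then ε n else δ (n - N)) = 0 ∨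
      (if n < N then ε n else δ (n - N)) = 1 := by
    intro n; split_ifs
    · exact hε n
    · exact hδ _
  refine ⟨fun n => if n < N then ε n else δ (n - N), hε', ?_⟩
  rw [← (summable_eps hε' hv).sum_add_tsum_nat_add N]
  congr 1
  · refine Finset.sum_congr rfl fun n hn => ?_
    rw [if_pos (Finset.mem_range.1 hn)]
  · refine tsum_congr fun n => ?_
    rw [if_neg (by omega), Nat.add_sub_cancel]

/-- Removing the first term preserves nonempty interior. -/
lemma interior_shift_one {v : ℕ → X} (hv : Summable fun n => ‖v n‖)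
    (h : (interior (AchSet v)).Nonempty) : (interior (AchSet fun n => v (n + 1))).Nonempty := by
  by_contra hne
  rw [not_nonempty_iff_eq_empty] at hne
  have hv1 : Summable fun n => ‖v (n + 1)‖ := (summable_nat_add_iff 1).2 hv
  have hcl : IsClosed (AchSet fun n => v (n + 1)) := (isCompact_achSet hv1).isClosed
  have hsub : AchSet v ⊆ (AchSet fun n => v (n + 1)) ∪
      ((Homeomorph.addLeft (v 0)) '' (AchSet fun n => v (n + 1))) := by
    rintro x ⟨ε, hε, rfl⟩
    have h1 := (summable_eps hε hv).sum_add_tsum_nat_add 1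
    rw [Finset.sum_range_one] at h1
    have h2 : (∑' n, ε (n + 1) • v (n + 1)) ∈ AchSet fun n => v (n + 1) :=
      ⟨fun n => ε (n + 1), fun n => hε _, rfl⟩
    rcases hε 0 with h0 | h0
    · left
      rw [← h1, h0, zero_smul, zero_add]
      exact h2
    · right
      rw [← h1, h0, one_smul]
      exact ⟨_, h2, rfl⟩
  have himg : interior ((Homeomorph.addLeft (v 0)) '' (AchSet fun n => v (n + 1))) = ∅ := by
    rw [← Homeomorph.image_interior, hne, image_empty]
  have h3 := interior_union_isClosed_of_interior_empty hcl himg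
  rw [hne] at h3
  have := interior_mono hsub
  rw [h3] at this
  exact (h.mono this).ne_empty rfl

lemma interior_shift {v : ℕ → X} (hv : Summable fun n => ‖v n‖)
    (h : (interior (AchSet v)).Nonempty) (N : ℕ) :
    (interior (AchSet fun n => v (n + N))).Nonempty := by
  induction N with
  | zero => simpa using h
  | succ N ih =>
    have hvN : Summable fun n => ‖v (n + N)‖ := (summable_nat_add_iff N).2 hv
    have := interior_shift_one (v := fun n => v (n + N)) hvN ih
    convert this using 4 with n
    ring_nf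

lemma norm_le_tail {v : ℕ → X} (hv : Summable fun n => ‖v n‖) {z : X} (hz : z ∈ AchSet v) :
    ‖z‖ ≤ ∑' n, ‖v n‖ := by
  obtain ⟨ε, hε, rfl⟩ := hz
  exact tsum_of_norm_bounded hv.hasSum (norm_eps hε v)

theorem main {v : ℕ → X} (hv : Summable fun n => ‖v n‖) :
    AchSet v = closure (interior (AchSet v)) ∨ IsNowhereDense (AchSet v) := by
  have hclosed : IsClosed (AchSet v) := (isCompact_achSet hv).isClosed
  rcases (interior (AchSet v)).eq_empty_or_nonempty with h | h
  · right
    rw [IsNowhereDense, hclosed.closure_eq, h]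
  · left
    refine Subset.antisymm ?_ (closure_minimal interior_subset hclosed)
    rintro x ⟨ε, hε, rfl⟩
    rw [Metric.mem_closure_iff]
    intro r hr
    have htail : Tendsto (fun N => ∑' n, ‖v (n + N)‖) atTop (𝓝 0) :=
      tendsto_sum_nat_add fun n => ‖v n‖
    obtain ⟨N, hN⟩ := (htail.eventually (gt_mem_nhds (show (0 : ℝ) < r / 2 by positivity))).exists
    obtain ⟨z, hz⟩ := interior_shift hv h N
    refine ⟨(∑ n ∈ Finset.range N, ε n • v n) + z, ?_, ?_⟩
    · have hopen : IsOpen ((Homeomorph.addLeft (∑ n ∈ Finset.range N, ε n • v n)) ''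
          (interior (AchSet fun n => v (n + N)))) :=
        (Homeomorph.isOpen_image _).2 isOpen_interior
      have hsub : ((Homeomorph.addLeft (∑ n ∈ Finset.range N, ε n • v n)) ''
          (interior (AchSet fun n => v (n + N)))) ⊆ AchSet v := by
        rintro _ ⟨w, hw, rfl⟩
        exact shift_mem hv hε N (interior_subset hw)
      exact interior_maximal hsub hopen ⟨z, hz, rfl⟩
    · have hvN : Summable fun n => ‖v (n + N)‖ := (summable_nat_add_iff N).2 hv
      rw [← (summable_eps hε hv).sum_add_tsum_nat_add N, dist_add_left, dist_eq_norm]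
      have h1 : ‖∑' n, ε (n + N) • v (n + N)‖ ≤ ∑' n, ‖v (n + N)‖ :=
        norm_le_tail (v := fun n => v (n + N)) hvN ⟨fun n => ε (n + N), fun n => hε _, rfl⟩
      have h2 : ‖z‖ ≤ ∑' n, ‖v (n + N)‖ :=
        norm_le_tail (v := fun n => v (n + N)) hvN (interior_subset hz)
      have h3 := norm_sub_le (∑' n, ε (n + N) • v (n + N)) z
      linarith

end

/-- In every dimension `d` (in particular `d = 2`), the achievement set of an absolutely summable
sequence in `ℝ^d` is regularly closed or nowhere dense. -/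
theorem result : ∀ (d : ℕ) (v : ℕ → EuclideanSpace ℝ (Fin d)), Summable (fun n => ‖v n‖) →
    AchSet v = closure (interior (AchSet v)) ∨ IsNowhereDense (AchSet v) :=
  fun _ _ hv => main hv

end Pool.Agent.Results.MP_69f3e4_an.RegularlyClosedOrNowhereDense
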